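import Pool.Agent.H18.CGR.Stmts

/-!
# Row WSM of the board `cgr`: the geometric series over the words
-/

set_option autoImplicit false

namespace Pool.CGR

theorem wsm_thm : WSMStmt := by
  intro m c hc hmc
  have hmc0 : 0 ≤ (m : ℝ) * c := mul_nonneg (Nat.cast_nonneg m) hc
  let e : List (Fin m) ≃ Σ n, (Fin n → Fin m) := List.equivSigmaTuple
  let g : (Σ n, (Fin n → Fin m)) → ℝ := fun s => c ^ s.1
  have hg : (fun v : List (Fin m) => c ^ v.length) = g ∘ e := rfl
  have h1 : ∀ n : ℕ, ∑' y : Fin n → Fin m, g ⟨n, y⟩ = ((m : ℝ) * c) ^ n := by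
    intro n
    show ∑' _ : Fin n → Fin m, c ^ n = _
    rw [tsum_fintype, Finset.sum_const, Finset.card_univ, Fintype.card_fun, Fintype.card_fin,
      Fintype.card_fin, nsmul_eq_mul, mul_pow]
    push_cast
    rfl
  have h2 : ∀ n : ℕ, Summable fun y : Fin n → Fin m => g ⟨n, y⟩ := fun n =>
    (hasSum_fintype _).summable
  have h3 : Summable g := by
    rw [summable_sigma_of_nonneg (fun s => pow_nonneg hc _)]
    refine ⟨h2, ?_⟩
    rw [funext h1]
    exact summable_geometric_of_lt_one hmc0 hmc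
  constructor
  · rw [hg, e.summable_iff]
    exact h3
  · rw [hg, show ∑' v : List (Fin m), (g ∘ e) v = ∑' s, g s from e.tsum_eq g,
      Summable.tsum_sigma' h2 h3, tsum_congr h1, tsum_geometric_of_lt_one hmc0 hmc, one_div]

end Pool.CGR
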